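import Pool.Agent.H62.M4.Lor

/-!
MP_6c826d_gt, insurance theorem.  The open future cone and small perturbations.
-/

set_option autoImplicit false

namespace Pool.Agent.H70.M4

open Finset Filter Topology Pool.Agent.H62.M4

/-- the upper sheet of the hyperboloid -/
def Hy : Set V5 := {x | B x x = -1 ∧ 0 < x 0}

/-- the open future cone -/
def K : Set V5 := {x | B x x < 0 ∧ 0 < x 0}

theorem hy_K {x : V5} (h : x ∈ Hy) : x ∈ K := ⟨by rw [h.1]; norm_num, h.2⟩

theorem K_smul {x : V5} {c : ℝ} (h : x ∈ K) (hc : 0 < c) : c • x ∈ K := by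
  obtain ⟨h1, h2⟩ := h
  refine ⟨?_, ?_⟩
  · rw [B_smul_left, B_smul_right]
    have : 0 < c * c := by positivity
    nlinarith
  · rw [Pi.smul_apply, smul_eq_mul]
    positivity

theorem K_norm {x : V5} (h : x ∈ K) : ∃ c : ℝ, 0 < c ∧ c • x ∈ Hy := by
  obtain ⟨h1, h2⟩ := h
  have h3 : 0 < -B x x := by linarith
  refine ⟨1 / Real.sqrt (-B x x), by positivity, ?_, ?_⟩
  · rw [B_smul_left, B_smul_right]
    have h4 : Real.sqrt (-B x x) ^ 2 = -B x x := Real.sq_sqrt h3.le
    have h5 : 0 < Real.sqrt (-B x x) := Real.sqrt_pos.2 h3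
    field_simp
    linarith
  · rw [Pi.smul_apply, smul_eq_mul]
    positivity

theorem K_B {x y : V5} (hx : x ∈ K) (hy : y ∈ K) : B x y < 0 := by
  obtain ⟨a, ha, hxa⟩ := K_norm hx
  obtain ⟨b, hb, hyb⟩ := K_norm hy
  have h := unit_timelike_le hxa.1 hxa.2 hyb.1 hyb.2
  rw [B_smul_left, B_smul_right] at h
  have : 0 < a * b := by positivity
  by_contra hcon
  push Not at hcon
  have h2 : 0 ≤ a * (b * B x y) := by positivity
  linarith

theorem K_add {x y : V5} (hx : x ∈ K) (hy : y ∈ K) : x + y ∈ K := by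
  have h := K_B hx hy
  refine ⟨?_, ?_⟩
  · rw [B_add_left, B_add_right, B_add_right, B_comm y x]
    linarith [hx.1, hy.1]
  · rw [Pi.add_apply]
    exact add_pos hx.2 hy.2

theorem K_sum {ι : Type*} (s : Finset ι) (f : ι → V5) {x0 : V5} (h0 : x0 ∈ K)
    (hf : ∀ i ∈ s, f i ∈ K) : x0 + ∑ i ∈ s, f i ∈ K := by
  classical
  induction s using Finset.induction_on with
  | empty => simpa using h0
  | insert a s ha ih =>
    rw [Finset.sum_insert ha, ← add_assoc, add_right_comm]
    exact K_add (ih fun i hi => hf i (mem_insert_of_mem hi)) (hf a (mem_insert_self a s))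

theorem B_sum {ι : Type*} (s : Finset ι) (f : ι → V5) (y : V5) :
    B (∑ i ∈ s, f i) y = ∑ i ∈ s, B (f i) y := by
  classical
  induction s using Finset.induction_on with
  | empty => simp
  | insert a s ha ih => rw [Finset.sum_insert ha, Finset.sum_insert ha, B_add_left, ih]

/-- the functional `B · e` -/
def Bl (e : V5) : V5 →ₗ[ℝ] ℝ where
  toFun x := B x e
  map_add' x y := B_add_left x y e
  map_smul' c x := by rw [B_smul_left]; rfl

@[simp] theorem Bl_apply (e x : V5) : Bl e x = B x e := rfl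

/-- the hyperplane orthogonal to `e` -/
def W (e : V5) : Submodule ℝ V5 := LinearMap.ker (Bl e)

theorem mem_W {e x : V5} : x ∈ W e ↔ B x e = 0 := by
  unfold W
  rw [LinearMap.mem_ker, Bl_apply]

theorem contB (e : V5) : Continuous fun x : V5 => B x e := by
  unfold B
  fun_prop

theorem contBB : Continuous fun x : V5 => B x x := by
  unfold B
  fun_prop

theorem path_cont (x v : V5) : Continuous fun t : ℝ => x + t • v := by fun_prop

theorem K_open {x : V5} (hx : x ∈ K) (v : V5) : ∀ᶠ t in 𝓝 (0 : ℝ), x + t • v ∈ K := by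
  have h0 : x + (0 : ℝ) • v = x := by rw [zero_smul, add_zero]
  have h1 : ∀ᶠ t in 𝓝 (0 : ℝ), B (x + t • v) (x + t • v) < 0 := by
    have hc : Continuous fun t : ℝ => B (x + t • v) (x + t • v) := contBB.comp (path_cont x v)
    refine hc.continuousAt.eventually_lt continuousAt_const ?_
    simp only [h0]
    exact hx.1
  have h2 : ∀ᶠ t in 𝓝 (0 : ℝ), 0 < (x + t • v) 0 := by
    have hc : Continuous fun t : ℝ => (x + t • v) 0 := (continuous_apply 0).comp (path_cont x v)
    refine continuousAt_const.eventually_lt hc.continuousAt ?_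
    simp only [h0]
    exact hx.2
  filter_upwards [h1, h2] with t a b using ⟨a, b⟩

theorem lt_open {x e : V5} (hx : B x e < 0) (v : V5) : ∀ᶠ t in 𝓝 (0 : ℝ), B (x + t • v) e < 0 := by
  have h0 : x + (0 : ℝ) • v = x := by rw [zero_smul, add_zero]
  have hc : Continuous fun t : ℝ => B (x + t • v) e := (contB e).comp (path_cont x v)
  refine hc.continuousAt.eventually_lt continuousAt_const ?_
  simp only [h0]
  exact hx

/-- a small positive parameter which keeps finitely many strict inequalities -/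
theorem small {ι : Type*} (s : Finset ι) (e : ι → V5) {x : V5} (hx : x ∈ K)
    (hs : ∀ i ∈ s, B x (e i) < 0) (v : V5) :
    ∃ t : ℝ, 0 < t ∧ x + t • v ∈ K ∧ ∀ i ∈ s, B (x + t • v) (e i) < 0 := by
  have h1 := K_open hx v
  have h2 : ∀ᶠ t in 𝓝 (0 : ℝ), ∀ i ∈ s, B (x + t • v) (e i) < 0 :=
    (Finset.eventually_all s).2 fun i hi => lt_open (hs i hi) v
  have h3 : ∀ᶠ t in 𝓝[>] (0 : ℝ), x + t • v ∈ K ∧ ∀ i ∈ s, B (x + t • v) (e i) < 0 :=
    (h1.and h2).filter_mono nhdsWithin_le_nhds
  have h4 : ∀ᶠ t in 𝓝[>] (0 : ℝ), (0 : ℝ) < t := eventually_mem_nhdsWithin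
  obtain ⟨t, ht1, ht2⟩ := (h4.and h3).exists
  exact ⟨t, ht1, ht2.1, ht2.2⟩

/-- the form is nondegenerate -/
theorem nondeg {v : V5} (h : ∀ x, B x v = 0) : v = 0 := by
  funext i
  have h0 := h (Pi.single 0 1)
  have h1 := h (Pi.single 1 1)
  have h2 := h (Pi.single 2 1)
  have h3 := h (Pi.single 3 1)
  have h4 := h (Pi.single 4 1)
  simp [B] at h0 h1 h2 h3 h4
  fin_cases i <;> simp_all

end Pool.Agent.H70.M4
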