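import Pool.Agent.H70.M4.Cone

/-!
MP_6c826d_gt, insurance theorem.  Irredundant subfamilies of inequalities.
-/

set_option autoImplicit false

namespace Pool.Agent.H70.M4

open Finset Filter Topology Pool.Agent.H62.M4

/-- a minimal subfamily of the inequalities `B x (e i) ≤ 0`, `i ∈ S`, on the part of the
hyperboloid in the subspace `U` -/
theorem min_sub {ι : Type*} (e : ι → V5) (S : Finset ι) (U : Submodule ℝ V5) {z : V5}
    (hz : z ∈ Hy) (hzU : z ∈ U) (hzS : ∀ i ∈ S, B z (e i) < 0) :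
    ∃ T ⊆ S, (∀ x ∈ Hy, x ∈ U → (∀ i ∈ T, B x (e i) ≤ 0) → ∀ i ∈ S, B x (e i) ≤ 0) ∧
      ∀ i ∈ T, ∃ w ∈ Hy, w ∈ U ∧ B w (e i) = 0 ∧ ∀ j ∈ T, j ≠ i → B w (e j) < 0 := by
  classical
  set C : Finset (Finset ι) := S.powerset.filter fun T =>
    ∀ x ∈ Hy, x ∈ U → (∀ i ∈ T, B x (e i) ≤ 0) → ∀ i ∈ S, B x (e i) ≤ 0 with hC
  have hCne : C.Nonempty := ⟨S, by
    rw [hC, mem_filter, mem_powerset]
    exact ⟨Subset.refl S, fun x _ _ h => h⟩⟩
  obtain ⟨T, hT, hmin⟩ := Finset.exists_min_image C Finset.card hCne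
  rw [hC, mem_filter, mem_powerset] at hT
  refine ⟨T, hT.1, hT.2, fun i hi => ?_⟩
  have h1 : T.erase i ∉ C := by
    intro hc
    have := hmin _ hc
    rw [card_erase_of_mem hi] at this
    have h2 : 0 < T.card := card_pos.2 ⟨i, hi⟩
    omega
  rw [hC, mem_filter, mem_powerset, not_and] at h1
  have h2 := h1 ((erase_subset i T).trans hT.1)
  push Not at h2
  obtain ⟨x, hx, hxU, hx2, k, hk, hxk⟩ := h2
  have hxi : 0 < B x (e i) := by
    by_contra hcon
    push Not at hcon
    have := hT.2 x hx hxU (fun j hj => by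
      by_cases hji : j = i
      · rw [hji]; exact hcon
      · exact hx2 j (mem_erase.2 ⟨hji, hj⟩)) k hk
    linarith
  have hzi : B z (e i) < 0 := hzS i (hT.1 hi)
  set w : V5 := B x (e i) • z + (-B z (e i)) • x with hw
  have hwK : w ∈ K := K_add (K_smul (hy_K hz) hxi) (K_smul (hy_K hx) (by linarith))
  have hwU : w ∈ U := U.add_mem (U.smul_mem _ hzU) (U.smul_mem _ hxU)
  have hwi : B w (e i) = 0 := by
    rw [hw, B_add_left, B_smul_left, B_smul_left]
    ring
  have hwj : ∀ j ∈ T, j ≠ i → B w (e j) < 0 := by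
    intro j hj hji
    have a1 := hzS j (hT.1 hj)
    have a2 := hx2 j (mem_erase.2 ⟨hji, hj⟩)
    rw [hw, B_add_left, B_smul_left, B_smul_left]
    have a3 : B x (e i) * B z (e j) < 0 := mul_neg_of_pos_of_neg hxi a1
    have a4 : -B z (e i) * B x (e j) ≤ 0 :=
      mul_nonpos_of_nonneg_of_nonpos (by linarith) a2
    linarith
  obtain ⟨c, hc, hcw⟩ := K_norm hwK
  refine ⟨c • w, hcw, U.smul_mem _ hwU, ?_, fun j hj hji => ?_⟩
  · rw [B_smul_left, hwi, mul_zero]
  · rw [B_smul_left]
    exact mul_neg_of_pos_of_neg hc (hwj j hj hji)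

/-- the span of a set which contains a neighbourhood of `x` in `U` (up to scaling) -/
theorem le_span {F : Set V5} {U : Submodule ℝ V5} {x : V5} (hx : x ∈ F)
    (h : ∀ v ∈ U, ∃ t : ℝ, 0 < t ∧ ∃ c : ℝ, 0 < c ∧ c • (x + t • v) ∈ F) :
    U ≤ Submodule.span ℝ F := by
  intro v hv
  obtain ⟨t, ht, c, hc, hF⟩ := h v hv
  have h1 : x ∈ Submodule.span ℝ F := Submodule.subset_span hx
  have h2 : c • (x + t • v) ∈ Submodule.span ℝ F := Submodule.subset_span hF
  have h3 : x + t • v ∈ Submodule.span ℝ F := by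
    have := Submodule.smul_mem _ c⁻¹ h2
    rwa [smul_smul, inv_mul_cancel₀ hc.ne', one_smul] at this
  have h4 : t • v ∈ Submodule.span ℝ F := by
    have := Submodule.sub_mem _ h3 h1
    rwa [add_sub_cancel_left] at this
  have := Submodule.smul_mem _ t⁻¹ h4
  rwa [smul_smul, inv_mul_cancel₀ ht.ne', one_smul] at this

/-- a hyperplane has dimension 4 -/
theorem finrank_W {e : V5} (he : B e e = 1) : Module.finrank ℝ (W e) = 4 := by
  have h1 := LinearMap.finrank_range_add_finrank_ker (Bl e)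
  have h2 : LinearMap.range (Bl e) = ⊤ := by
    rw [LinearMap.range_eq_top]
    intro r
    refine ⟨r • e, ?_⟩
    rw [Bl_apply, B_smul_left, he, mul_one]
  rw [h2, finrank_top, Module.finrank_self, Module.finrank_fin_fun] at h1
  unfold W
  omega

/-- the intersection of two different hyperplanes has dimension 3 -/
theorem finrank_WW {e f : V5} (he : B e e = 1) (hf : B f f = 1) (hef : B e f ^ 2 ≠ 1) :
    Module.finrank ℝ (W e ⊓ W f : Submodule ℝ V5) = 3 := by
  have h1 := LinearMap.finrank_range_add_finrank_ker ((Bl e).prod (Bl f))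
  have h2 : LinearMap.range ((Bl e).prod (Bl f)) = ⊤ := by
    rw [LinearMap.range_eq_top]
    rintro ⟨r, s⟩
    have hne : 1 - B e f ^ 2 ≠ 0 := fun h => hef (by linarith)
    refine ⟨((r - B e f * s) / (1 - B e f ^ 2)) • e + ((s - B e f * r) / (1 - B e f ^ 2)) • f, ?_⟩
    rw [LinearMap.prod_apply]
    simp only [Function.prod_apply, Bl_apply, B_add_left, B_smul_left, he, hf, B_comm f e]
    refine Prod.ext ?_ ?_
    · simp only
      field_simp
      ring
    · simp only
      field_simp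
      ring
  rw [h2, finrank_top, LinearMap.ker_prod, Module.finrank_prod, Module.finrank_self,
    Module.finrank_fin_fun] at h1
  unfold W
  omega

end Pool.Agent.H70.M4
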