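import Pool.Agent.H70.M4.Poly

/-!
MP_6c826d_gt, insurance theorem.  In a right-angled polytope (only facets which meet along a
2-dimensional face are assumed orthogonal) any two facets which meet are orthogonal.
-/

set_option autoImplicit false

namespace Pool.Agent.H70.M4

open Finset Filter Topology Pool.Agent.H62.M4

/-- right-angled: facets which meet along a 2-dimensional face have orthogonal normals -/
def RAng (P : Set V5) : Prop := ∀ f g : V5, Supp P f → Supp P g → Dm (fc P f) 3 →
  Dm (fc P g) 3 → fc P f ≠ fc P g → Dm (fc P f ∩ fc P g) 2 → B f g = 0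

variable {n : ℕ} {P : Set V5} {e : Fin n → V5} {z : V5}

theorem Irr.orth (h : Irr P e z) (hR : RAng P) {i j : Fin n} (hij : i ≠ j)
    (hd : Dm (fc P (e i) ∩ fc P (e j)) 2) : B (e i) (e j) = 0 :=
  hR _ _ (h.supp i) (h.supp j) (h.dm_fc i) (h.dm_fc j) (fun hh => hij (h.inj hh)) hd

/-- the `i`-th facet is cut out by facets orthogonal to it -/
theorem Irr.adj (h : Irr P e z) (hR : RAng P) (i : Fin n) : ∃ T : Finset (Fin n),
    (∀ x ∈ Hy, x ∈ W (e i) → (∀ k ∈ T, B x (e k) ≤ 0) → ∀ k, B x (e k) ≤ 0) ∧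
      ∀ k ∈ T, B (e i) (e k) = 0 := by
  classical
  obtain ⟨x, hx, hxi, hxj⟩ := h.gen i
  obtain ⟨T, hTS, hT1, hT2⟩ := min_sub e (univ.erase i) (W (e i)) hx (mem_W.2 hxi)
    (fun k hk => hxj k (ne_of_mem_erase hk))
  have hT : ∀ x ∈ Hy, x ∈ W (e i) → (∀ k ∈ T, B x (e k) ≤ 0) → ∀ k, B x (e k) ≤ 0 := by
    intro y hy hyW hyT k
    by_cases hk : k = i
    · rw [hk, mem_W.1 hyW]
    · exact hT1 y hy hyW hyT k (mem_erase.2 ⟨hk, mem_univ k⟩)
  refine ⟨T, hT, fun k hk => ?_⟩
  obtain ⟨w, hw, hwW, hwk, hwj⟩ := hT2 k hk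
  have hik : i ≠ k := Ne.symm (ne_of_mem_erase (hTS hk))
  exact h.orth hR hik (h.dm_two hik T hT hw (mem_W.1 hwW) hwk hwj)

/-- all dihedral angles are non-obtuse -/
theorem Irr.nonpos (h : Irr P e z) (hR : RAng P) {i j : Fin n} (hij : i ≠ j) :
    B (e i) (e j) ≤ 0 := by
  obtain ⟨T, hT, hTo⟩ := h.adj hR i
  obtain ⟨x, hx, hxj, hxk⟩ := h.gen j
  have hxi : B x (e i) < 0 := hxk i hij
  have hxP : ∀ k, B x (e k) ≤ 0 := fun k => by
    by_cases hk : k = j
    · rw [hk, hxj]
    · exact (hxk k hk).le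
  set y : V5 := x - B x (e i) • e i with hy
  have hyy : B y y < 0 := by
    rw [hy]
    simp only [B_sub_left, B_sub_right, B_smul_left, B_smul_right, h.norm, hx.1, B_comm (e i) x]
    nlinarith [sq_nonneg (B x (e i))]
  have hxy : B x y < 0 := by
    rw [hy]
    simp only [B_sub_right, B_smul_right, hx.1]
    nlinarith [sq_nonneg (B x (e i))]
  have hyK : y ∈ K := ⟨hyy, time_pos_of hx.1 hx.2 hyy hxy⟩
  obtain ⟨c, hc, hcH⟩ := K_norm hyK
  have hyi : B y (e i) = 0 := by
    rw [hy, B_sub_left, B_smul_left, h.norm]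
    ring
  have hall := hT (c • y) hcH (mem_W.2 (by rw [B_smul_left, hyi, mul_zero])) (fun k hk => by
    rw [B_smul_left, hy, B_sub_left, B_smul_left, hTo k hk, mul_zero, sub_zero]
    exact mul_nonpos_of_nonneg_of_nonpos hc.le (hxP k))
  have h1 := hall j
  rw [B_smul_left, hy, B_sub_left, B_smul_left, hxj, zero_sub] at h1
  have h2 : -(B x (e i) * B (e i) (e j)) ≤ 0 := by
    by_contra hcon
    push Not at hcon
    have := mul_pos hc hcon
    linarith
  by_contra hcon
  push Not at hcon
  have := mul_neg_of_neg_of_pos hxi hcon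
  linarith

theorem B_sum_smul {ι : Type*} (s : Finset ι) (a : ι → ℝ) (f : ι → V5) (y : V5) :
    B (∑ i ∈ s, a i • f i) y = ∑ i ∈ s, a i * B (f i) y := by
  rw [B_sum]
  exact Finset.sum_congr rfl fun i _ => B_smul_left _ _ _

/-- the normals of the facets through a point are linearly independent -/
theorem Irr.indep (h : Irr P e z) (hR : RAng P) {x : V5} (hx : x ∈ Hy) (a : Fin n → ℝ)
    (ha : ∀ k, B x (e k) ≠ 0 → a k = 0) (hsum : ∑ k, a k • e k = 0) : ∀ k, a k = 0 := by
  classical
  set v : V5 := ∑ k, max (a k) 0 • e k with hv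
  have hv2 : v = ∑ k, max (-a k) 0 • e k := by
    have h1 : v - ∑ k, max (-a k) 0 • e k = 0 := by
      rw [hv, ← Finset.sum_sub_distrib, ← hsum]
      refine Finset.sum_congr rfl fun k _ => ?_
      rw [← sub_smul]
      congr 1
      rcases le_total 0 (a k) with h2 | h2
      · rw [max_eq_left h2, max_eq_right (by linarith), sub_zero]
      · rw [max_eq_right h2, max_eq_left (by linarith)]
        ring
    exact sub_eq_zero.1 h1
  have hxv : B x v = 0 := by
    rw [B_comm, hv, B_sum_smul]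
    refine Finset.sum_eq_zero fun k _ => ?_
    by_cases hk : B x (e k) = 0
    · rw [B_comm, hk, mul_zero]
    · rw [ha k hk, max_self, zero_mul]
  have hvv : B v v ≤ 0 := by
    have h1 : B v v = ∑ k, max (a k) 0 * B (e k) v := by
      conv_lhs => rw [hv]
      rw [B_sum_smul]
    rw [h1]
    refine Finset.sum_nonpos fun k _ => ?_
    rcases le_or_gt (a k) 0 with hk | hk
    · rw [max_eq_right hk, zero_mul]
    · refine mul_nonpos_of_nonneg_of_nonpos (le_max_right _ _) ?_
      rw [B_comm, hv2, B_sum_smul]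
      refine Finset.sum_nonpos fun l _ => ?_
      by_cases hlk : l = k
      · rw [hlk, max_eq_right (by linarith), zero_mul]
      · exact mul_nonpos_of_nonneg_of_nonpos (le_max_right _ _) (h.nonpos hR hlk)
  have hv0 : v = 0 := by
    have h1 := orth_timelike (by rw [hx.1]; norm_num) hxv
    exact orth_timelike_zero (by rw [hx.1]; norm_num) hxv (le_antisymm hvv h1)
  have hz : ∀ b : Fin n → ℝ, (∀ k, 0 ≤ b k) → ∑ k, b k • e k = 0 → ∀ k, b k = 0 := by
    intro b hb hb0 k
    have h1 : B (∑ k, b k • e k) z = 0 := by rw [hb0, B_zero_left]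
    rw [B_sum_smul] at h1
    have h2 : ∀ l ∈ univ, b l * B (e l) z ≤ 0 := fun l _ => by
      refine mul_nonpos_of_nonneg_of_nonpos (hb l) ?_
      rw [B_comm]
      exact (h.int.2 l).le
    have h3 := (Finset.sum_eq_zero_iff_of_nonpos h2).1 h1 k (mem_univ k)
    rcases mul_eq_zero.1 h3 with h4 | h4
    · exact h4
    · exfalso
      rw [B_comm] at h4
      exact (h.int.2 k).ne h4
  have h1 := hz (fun k => max (a k) 0) (fun k => le_max_right _ _) (by rw [← hv]; exact hv0)
  have h2 := hz (fun k => max (-a k) 0) (fun k => le_max_right _ _) (by rw [← hv2]; exact hv0)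
  intro k
  have h3 : max (a k) 0 = 0 := h1 k
  have h4 : max (-a k) 0 = 0 := h2 k
  have h5 := le_max_left (a k) 0
  have h6 := le_max_left (-a k) 0
  linarith

/-- prescribing the values of the form on linearly independent vectors -/
theorem exists_dual {m : ℕ} (f : Fin m → V5) (I : Finset (Fin m))
    (hI : ∀ a : Fin m → ℝ, (∀ k, k ∉ I → a k = 0) → ∑ k, a k • f k = 0 → ∀ k, a k = 0)
    (b : Fin m → ℝ) : ∃ u : V5, ∀ k ∈ I, B u (f k) = b k := by
  classical
  have hli : LinearIndependent ℝ (fun k : I => f k) := by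
    rw [Fintype.linearIndependent_iff]
    intro g hg k
    have h1 := hI (fun l => if hl : l ∈ I then g ⟨l, hl⟩ else 0) (fun l hl => dif_neg hl) (by
      rw [← hg, ← Finset.sum_subset (subset_univ I) (fun l _ hl => by rw [dif_neg hl, zero_smul]),
        ← Finset.sum_coe_sort]
      refine Finset.sum_congr rfl fun l _ => ?_
      rw [dif_pos l.2]) k
    rw [dif_pos k.2] at h1
    exact h1
  obtain ⟨g, hg⟩ := LinearMap.exists_leftInverse_of_injective
    (Fintype.linearCombination ℝ (fun k : I => f k))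
    (LinearMap.ker_eq_bot.2 hli.fintypeLinearCombination_injective)
  set φ : V5 →ₗ[ℝ] ℝ := ∑ k : I, b k • (LinearMap.proj k ∘ₗ g) with hφ
  have hφk : ∀ k : I, φ (f k) = b k := by
    intro k
    have h1 : g (f k) = Pi.single k 1 := by
      have h2 := LinearMap.congr_fun hg (Pi.single k 1)
      rw [LinearMap.comp_apply, Fintype.linearCombination_apply_single, one_smul,
        LinearMap.id_apply] at h2
      exact h2
    rw [hφ, LinearMap.sum_apply, Finset.sum_eq_single k]
    · rw [LinearMap.smul_apply, LinearMap.comp_apply, h1, LinearMap.proj_apply, Pi.single_eq_same,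
        smul_eq_mul, mul_one]
    · intro l _ hl
      rw [LinearMap.smul_apply, LinearMap.comp_apply, h1, LinearMap.proj_apply,
        Pi.single_eq_of_ne hl, smul_zero]
    · intro hk
      exact absurd (mem_univ k) hk
  refine ⟨![-φ (Pi.single 0 1), φ (Pi.single 1 1), φ (Pi.single 2 1), φ (Pi.single 3 1),
    φ (Pi.single 4 1)], fun k hk => ?_⟩
  rw [← hφk ⟨k, hk⟩]
  have h1 : φ (f k) = ∑ i, f k i * φ (Pi.single i 1) := by
    conv_lhs => rw [← Finset.univ_sum_single (f k)]
    rw [map_sum]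
    refine Finset.sum_congr rfl fun i _ => ?_
    have h2 : (Pi.single i (f k i) : V5) = f k i • (Pi.single i 1 : V5) := by
      rw [← Pi.single_smul, smul_eq_mul, mul_one]
    rw [h2, map_smul, smul_eq_mul]
  show B _ (f k) = φ (f k)
  rw [h1, Fin.sum_univ_five]
  unfold B
  simp
  ring

/-- in a right-angled polytope two facets which meet are orthogonal -/
theorem Irr.meet (h : Irr P e z) (hR : RAng P) {i j : Fin n} (hij : i ≠ j) {x : V5} (hx : x ∈ P)
    (hxi : B x (e i) = 0) (hxj : B x (e j) = 0) : B (e i) (e j) = 0 := by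
  classical
  obtain ⟨hxH, hxP⟩ := h.mem.1 hx
  set I : Finset (Fin n) := univ.filter fun k => B x (e k) = 0 with hI
  obtain ⟨u, hu⟩ := exists_dual e I (fun a ha hs => h.indep hR hxH a (fun k hk => ha k (by
    rw [hI, mem_filter]
    exact fun hh => hk hh.2)) hs) (fun k => if k = i ∨ k = j then 0 else -1)
  obtain ⟨t, ht, htK, htk⟩ := small (univ.filter fun k => B x (e k) ≠ 0) e (hy_K hxH)
    (fun k hk => lt_of_le_of_ne (hxP k) (mem_filter.1 hk).2) u
  obtain ⟨c, hc, hcH⟩ := K_norm htK
  have hui : B u (e i) = 0 := by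
    rw [hu i (by rw [hI, mem_filter]; exact ⟨mem_univ i, hxi⟩), if_pos (Or.inl rfl)]
  have huj : B u (e j) = 0 := by
    rw [hu j (by rw [hI, mem_filter]; exact ⟨mem_univ j, hxj⟩), if_pos (Or.inr rfl)]
  have hi : B (c • (x + t • u)) (e i) = 0 := by
    rw [B_smul_left, B_add_left, B_smul_left, hxi, hui]
    ring
  have hj : B (c • (x + t • u)) (e j) = 0 := by
    rw [B_smul_left, B_add_left, B_smul_left, hxj, huj]
    ring
  have hk : ∀ k ∈ univ.erase i, k ≠ j → B (c • (x + t • u)) (e k) < 0 := by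
    intro k hk hkj
    have hki := ne_of_mem_erase hk
    rw [B_smul_left]
    refine mul_neg_of_pos_of_neg hc ?_
    by_cases hkx : B x (e k) = 0
    · rw [B_add_left, B_smul_left, hkx, hu k (by rw [hI, mem_filter]; exact ⟨mem_univ k, hkx⟩),
        if_neg (by tauto)]
      linarith
    · exact htk k (mem_filter.2 ⟨mem_univ k, hkx⟩)
  refine h.orth hR hij (h.dm_two hij (univ.erase i) (fun y _ hyW hy k => ?_) hcH hi hj hk)
  by_cases hki : k = i
  · rw [hki, mem_W.1 hyW]
  · exact hy k (mem_erase.2 ⟨hki, mem_univ k⟩)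

end Pool.Agent.H70.M4
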