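import Pool.Agent.H70.M4.Irr

/-!
MP_6c826d_gt, insurance theorem.  Compact right-angled polytopes as subsets of hyperbolic 4-space.
-/

set_option autoImplicit false

namespace Pool.Agent.H70.M4

open Finset Filter Topology Pool.Agent.H62.M4

/-- `e` is the outward unit normal of a closed half-space containing `P` -/
def Supp (P : Set V5) (e : V5) : Prop := B e e = 1 ∧ ∀ x ∈ P, B x e ≤ 0

/-- the points of `P` on the hyperplane orthogonal to `e` -/
def fc (P : Set V5) (e : V5) : Set V5 := {x | x ∈ P ∧ B x e = 0}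

/-- `F` has dimension `d` -/
def Dm (F : Set V5) (d : ℕ) : Prop := Module.finrank ℝ (Submodule.span ℝ F) = d + 1

/-- an irredundant family of unit normals of `P`, with an interior point `z` -/
structure Irr {n : ℕ} (P : Set V5) (e : Fin n → V5) (z : V5) : Prop where
  norm : ∀ i, B (e i) (e i) = 1
  set : P = {x | x ∈ Hy ∧ ∀ i, B x (e i) ≤ 0}
  int : z ∈ Hy ∧ ∀ i, B z (e i) < 0
  gen : ∀ i, ∃ x ∈ Hy, B x (e i) = 0 ∧ ∀ j, j ≠ i → B x (e j) < 0

variable {n : ℕ} {P : Set V5} {e : Fin n → V5} {z : V5}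

theorem Irr.mem (h : Irr P e z) {x : V5} : x ∈ P ↔ x ∈ Hy ∧ ∀ i, B x (e i) ≤ 0 := by
  constructor
  · intro hx
    rw [h.set] at hx
    exact hx
  · intro hx
    rw [h.set]
    exact hx

theorem Irr.supp (h : Irr P e z) (i : Fin n) : Supp P (e i) :=
  ⟨h.norm i, fun _ hx => (h.mem.1 hx).2 i⟩

theorem Irr.zP (h : Irr P e z) : z ∈ P := h.mem.2 ⟨h.int.1, fun i => (h.int.2 i).le⟩

/-- the linear span of the `i`-th facet -/
theorem Irr.span_fc (h : Irr P e z) (i : Fin n) : Submodule.span ℝ (fc P (e i)) = W (e i) := by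
  classical
  obtain ⟨x, hx, hxi, hxj⟩ := h.gen i
  apply le_antisymm
  · rw [Submodule.span_le]
    intro y hy
    exact mem_W.2 hy.2
  · have hxF : x ∈ fc P (e i) := ⟨h.mem.2 ⟨hx, fun j => by
      by_cases hj : j = i
      · rw [hj, hxi]
      · exact (hxj j hj).le⟩, hxi⟩
    refine le_span hxF fun v hv => ?_
    obtain ⟨t, ht, htK, htj⟩ := small (univ.erase i) e (hy_K hx)
      (fun j hj => hxj j (ne_of_mem_erase hj)) v
    obtain ⟨c, hc, hcH⟩ := K_norm htK
    have hzero : B (c • (x + t • v)) (e i) = 0 := by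
      rw [B_smul_left, B_add_left, B_smul_left, hxi, mem_W.1 hv]
      ring
    refine ⟨t, ht, c, hc, h.mem.2 ⟨hcH, fun j => ?_⟩, hzero⟩
    by_cases hj : j = i
    · rw [hj, hzero]
    · rw [B_smul_left]
      exact (mul_neg_of_pos_of_neg hc (htj j (mem_erase.2 ⟨hj, mem_univ j⟩))).le

theorem Irr.dm_fc (h : Irr P e z) (i : Fin n) : Dm (fc P (e i)) 3 := by
  unfold Dm
  rw [h.span_fc, finrank_W (h.norm i)]

theorem Irr.inj (h : Irr P e z) {i j : Fin n} (hij : fc P (e i) = fc P (e j)) : i = j := by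
  by_contra hne
  obtain ⟨x, hx, hxi, hxj⟩ := h.gen i
  have hxF : x ∈ fc P (e i) := ⟨h.mem.2 ⟨hx, fun k => by
    by_cases hk : k = i
    · rw [hk, hxi]
    · exact (hxj k hk).le⟩, hxi⟩
  rw [hij] at hxF
  have := hxj j (Ne.symm hne)
  linarith [hxF.2]

/-- two normals of an irredundant family with a common zero on the hyperboloid -/
theorem Irr.gram (h : Irr P e z) {i j : Fin n} (hij : i ≠ j) {w : V5} (hw : w ∈ Hy)
    (hwi : B w (e i) = 0) (hwj : B w (e j) = 0) : B (e i) (e j) ^ 2 ≠ 1 := by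
  intro hg
  set g := B (e i) (e j) with hgdef
  set v : V5 := e j - g • e i with hv
  have hji : B (e j) (e i) = g := by rw [B_comm]
  have h1 : B w v = 0 := by
    rw [hv, B_sub_right, B_smul_right, hwi, hwj]
    ring
  have h2 : B v v = 0 := by
    rw [hv]
    simp only [B_sub_left, B_sub_right, B_smul_left, B_smul_right, h.norm, hji, ← hgdef]
    nlinarith
  have h3 := orth_timelike_zero (by rw [hw.1]; norm_num) h1 h2
  have h4 : e j = g • e i := by
    rw [hv, sub_eq_zero] at h3
    exact h3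
  have hzi := h.int.2 i
  have hzj := h.int.2 j
  rw [h4, B_smul_right] at hzj
  have hgpos : 0 < g := by
    by_contra hcon
    push Not at hcon
    have : 0 ≤ g * B z (e i) := mul_nonneg_of_nonpos_of_nonpos hcon hzi.le
    linarith
  obtain ⟨x, hx, hxi, hxj⟩ := h.gen i
  have := hxj j (Ne.symm hij)
  rw [h4, B_smul_right, hxi, mul_zero] at this
  exact lt_irrefl _ this

/-- if a point of the polytope lies on exactly the facets `i`, `j`, they meet in dimension 2 -/
theorem Irr.dm_two (h : Irr P e z) {i j : Fin n} (hij : i ≠ j) (T : Finset (Fin n))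
    (hT : ∀ x ∈ Hy, x ∈ W (e i) → (∀ k ∈ T, B x (e k) ≤ 0) → ∀ k, B x (e k) ≤ 0)
    {w : V5} (hw : w ∈ Hy) (hwi : B w (e i) = 0) (hwj : B w (e j) = 0)
    (hwk : ∀ k ∈ T, k ≠ j → B w (e k) < 0) :
    Dm (fc P (e i) ∩ fc P (e j)) 2 := by
  classical
  have hg := h.gram hij hw hwi hwj
  have hspan : Submodule.span ℝ (fc P (e i) ∩ fc P (e j)) = W (e i) ⊓ W (e j) := by
    apply le_antisymm
    · rw [Submodule.span_le]
      intro y hy
      exact Submodule.mem_inf.2 ⟨mem_W.2 hy.1.2, mem_W.2 hy.2.2⟩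
    · have hwP : w ∈ P := h.mem.2 ⟨hw, hT w hw (mem_W.2 hwi) fun k hk => by
        by_cases hkj : k = j
        · rw [hkj, hwj]
        · exact (hwk k hk hkj).le⟩
      refine le_span (x := w) ⟨⟨hwP, hwi⟩, ⟨hwP, hwj⟩⟩ fun v hv => ?_
      rw [Submodule.mem_inf, mem_W, mem_W] at hv
      obtain ⟨t, ht, htK, htk⟩ := small (T.erase j) e (hy_K hw)
        (fun k hk => hwk k (mem_of_mem_erase hk) (ne_of_mem_erase hk)) v
      obtain ⟨c, hc, hcH⟩ := K_norm htK
      have hzi : B (c • (w + t • v)) (e i) = 0 := by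
        rw [B_smul_left, B_add_left, B_smul_left, hwi, hv.1]
        ring
      have hzj : B (c • (w + t • v)) (e j) = 0 := by
        rw [B_smul_left, B_add_left, B_smul_left, hwj, hv.2]
        ring
      have hP : c • (w + t • v) ∈ P := h.mem.2 ⟨hcH, hT _ hcH (mem_W.2 hzi) fun k hk => by
        by_cases hkj : k = j
        · rw [hkj, hzj]
        · rw [B_smul_left]
          exact (mul_neg_of_pos_of_neg hc (htk k (mem_erase.2 ⟨hkj, hk⟩))).le⟩
      exact ⟨t, ht, c, hc, ⟨hP, hzi⟩, ⟨hP, hzj⟩⟩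
  unfold Dm
  rw [hspan, finrank_WW (h.norm i) (h.norm j) hg]

/-- unit normals of faces of dimension 3 belong to the family -/
theorem Irr.normal (h : Irr P e z) {f : V5} (hf : Supp P f) (hd : Dm (fc P f) 3) :
    ∃ i, f = e i := by
  classical
  have hne : (fc P f).Nonempty := by
    rw [Set.nonempty_iff_ne_empty]
    intro h0
    unfold Dm at hd
    rw [h0, Submodule.span_empty, finrank_bot] at hd
    omega
  have hexi : ∃ i, ∀ x ∈ fc P f, B x (e i) = 0 := by
    by_contra hcon
    push Not at hcon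
    choose x hx hxi using hcon
    have hneg : ∀ i, B (x i) (e i) < 0 := fun i =>
      lt_of_le_of_ne ((h.mem.1 (hx i).1).2 i) (hxi i)
    obtain ⟨x0, hx0⟩ := hne
    set y : V5 := x0 + ∑ i, x i with hy
    have hyK : y ∈ K := K_sum univ x (hy_K (h.mem.1 hx0.1).1)
      (fun i _ => hy_K (h.mem.1 (hx i).1).1)
    have hyf : B y f = 0 := by
      rw [hy, B_add_left, B_sum, hx0.2, Finset.sum_eq_zero fun i _ => (hx i).2, add_zero]
    have hyj : ∀ j, B y (e j) < 0 := by
      intro j
      rw [hy, B_add_left, B_sum]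
      have h1 : B x0 (e j) ≤ 0 := (h.mem.1 hx0.1).2 j
      have h2 : ∑ i, B (x i) (e j) < 0 := by
        refine Finset.sum_neg' (fun i _ => (h.mem.1 (hx i).1).2 j) ⟨j, mem_univ j, hneg j⟩
      linarith
    obtain ⟨t, ht, htK, htj⟩ := small univ e hyK (fun j _ => hyj j) f
    obtain ⟨c, hc, hcH⟩ := K_norm htK
    have hP : c • (y + t • f) ∈ P := h.mem.2 ⟨hcH, fun j => by
      rw [B_smul_left]
      exact (mul_neg_of_pos_of_neg hc (htj j (mem_univ j))).le⟩
    have h3 := hf.2 _ hP
    rw [B_smul_left, B_add_left, B_smul_left, hyf, hf.1] at h3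
    have h4 : 0 < c * (0 + t * 1) := by
      rw [zero_add, mul_one]
      positivity
    linarith
  obtain ⟨i, hi⟩ := hexi
  refine ⟨i, ?_⟩
  have h1 : Submodule.span ℝ (fc P f) = W f := by
    apply Submodule.eq_of_le_of_finrank_eq
    · rw [Submodule.span_le]
      intro y hy
      exact mem_W.2 hy.2
    · rw [finrank_W hf.1]
      exact hd
  have h2 : Submodule.span ℝ (fc P f) = W (e i) := by
    apply Submodule.eq_of_le_of_finrank_eq
    · rw [Submodule.span_le]
      intro y hy
      exact mem_W.2 (hi y hy)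
    · rw [finrank_W (h.norm i)]
      exact hd
  have h3 : W f = W (e i) := by rw [← h1, h2]
  set g := B f (e i) with hg
  set v : V5 := f - g • e i with hv
  have hvW : v ∈ W f := by
    rw [h3, mem_W, hv, B_sub_left, B_smul_left, h.norm, ← hg]
    ring
  have hvf : B v f = 0 := mem_W.1 hvW
  have hg2 : 1 - g ^ 2 = 0 := by
    rw [hv, B_sub_left, B_smul_left, hf.1, B_comm (e i) f, ← hg] at hvf
    linarith
  have hv0 : v = 0 := by
    apply nondeg
    intro x
    have hxW : x - B x f • f ∈ W f := by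
      rw [mem_W, B_sub_left, B_smul_left, hf.1]
      ring
    have hxi : x - B x f • f ∈ W (e i) := by rw [← h3]; exact hxW
    have h4 : B (x - B x f • f) v = 0 := by
      rw [hv, B_sub_right, B_smul_right, mem_W.1 hxW, mem_W.1 hxi]
      ring
    have h5 : B f v = 0 := by rw [B_comm]; exact hvf
    rw [B_sub_left, B_smul_left, h5] at h4
    linarith
  have h6 : f = g • e i := by
    rw [hv, sub_eq_zero] at hv0
    exact hv0
  have hzi := h.int.2 i
  have hzf := hf.2 z h.zP
  rw [h6, B_smul_right] at hzf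
  have hg0 : 0 ≤ g := by
    by_contra hcon
    push Not at hcon
    have := mul_pos_of_neg_of_neg hcon hzi
    linarith
  have hg1 : g = 1 := by nlinarith
  rw [h6, hg1, one_smul]

/-- the facets of `P` -/
def Fct (P : Set V5) : Set (Set V5) := {F | ∃ f, Supp P f ∧ F = fc P f ∧ Dm F 3}

theorem Irr.facets (h : Irr P e z) : Fct P = Set.range fun i => fc P (e i) := by
  ext F
  constructor
  · rintro ⟨f, hf, rfl, hd⟩
    obtain ⟨i, hi⟩ := h.normal hf hd
    exact ⟨i, by rw [hi]⟩
  · rintro ⟨i, rfl⟩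
    exact ⟨e i, h.supp i, rfl, h.dm_fc i⟩

theorem Irr.ncard (h : Irr P e z) : (Fct P).ncard = n := by
  rw [h.facets, ← Set.image_univ, Set.ncard_image_of_injective _ (fun i j hij => h.inj hij),
    Set.ncard_univ, Nat.card_eq_fintype_card, Fintype.card_fin]

end Pool.Agent.H70.M4
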